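import Pool.Agent.H70.LZ.Stm

/-!
# LZ part BC2: consequences of BCH for ideals
-/

set_option autoImplicit false

open Finset

namespace H27.LZ

open H70.LZ

variable {R S : Type} [CommRing R] [Ring S] [Algebra R S]

theorem cm_neg_swap (x y : S) : cm x y = - cm y x := by
  unfold cm; abel

theorem cm_add_left (x y z : S) : cm (x + y) z = cm x z + cm y z := by
  unfold cm; noncomm_ring

theorem cm_add_right (x y z : S) : cm x (y + z) = cm x y + cm x z := by
  unfold cm; noncomm_ring

theorem cm_smul_left (r : R) (x y : S) : cm (r • x) y = r • cm x y := by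
  unfold cm; rw [smul_mul_assoc, mul_smul_comm, smul_sub]

theorem cm_smul_right (r : R) (x y : S) : cm x (r • y) = r • cm x y := by
  unfold cm; rw [smul_mul_assoc, mul_smul_comm, smul_sub]

theorem cm_self (x : S) : cm x x = 0 := by
  unfold cm; exact sub_self _

theorem cm_neg_left (x y : S) : cm (-x) y = - cm x y := by
  unfold cm; noncomm_ring

theorem cm_neg_right (x y : S) : cm x (-y) = - cm x y := by
  unfold cm; noncomm_ring

/-- (a) -/
theorem partA (hBCH : S_BCH) {c : ℕ} (A : Fil R S c) (m i : Submodule R S) (hm : m ≤ A.F 1)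
    (him : i ≤ m) (hi : ∀ a ∈ m, ∀ b ∈ i, cm a b ∈ i) (x : S) (hx : x ∈ m) (y : S) (hy : y ∈ m)
    (hxy : cm x y ∈ i) :
    ∃ z ∈ m, ex R c z = ex R c x * ex R c y ∧ z - x - y ∈ i := by
  set m' : Submodule R S := Submodule.span R {x} ⊔ Submodule.span R {y} ⊔ i with hm'
  have hle : m' ≤ m := by
    refine sup_le (sup_le ?_ ?_) him
    · rw [Submodule.span_le]; simpa using hx
    · rw [Submodule.span_le]; simpa using hy
  have hxm : x ∈ m' := by
    apply Submodule.mem_sup_left
    apply Submodule.mem_sup_left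
    exact Submodule.mem_span_singleton_self x
  have hym : y ∈ m' := by
    apply Submodule.mem_sup_left
    apply Submodule.mem_sup_right
    exact Submodule.mem_span_singleton_self y
  have him' : i ≤ m' := le_sup_right
  have hcl : ∀ a ∈ m', ∀ b ∈ m', cm a b ∈ i := by
    intro a ha b hb
    have hbm : b ∈ m := hle hb
    obtain ⟨a1, ha1, u, hu, rfl⟩ := Submodule.mem_sup.1 ha
    obtain ⟨ax, hax, ay, hay, rfl⟩ := Submodule.mem_sup.1 ha1
    obtain ⟨r, rfl⟩ := Submodule.mem_span_singleton.1 hax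
    obtain ⟨s, rfl⟩ := Submodule.mem_span_singleton.1 hay
    obtain ⟨b1, hb1, v, hv, rfl⟩ := Submodule.mem_sup.1 hb
    obtain ⟨bx, hbx, bY, hbY, rfl⟩ := Submodule.mem_sup.1 hb1
    obtain ⟨r', rfl⟩ := Submodule.mem_span_singleton.1 hbx
    obtain ⟨s', rfl⟩ := Submodule.mem_span_singleton.1 hbY
    have h1 : cm (r • x + s • y) v ∈ i :=
      hi _ (m.add_mem (m.smul_mem _ hx) (m.smul_mem _ hy)) _ hv
    have h2 : cm u (r' • x + s' • y + v) ∈ i := by
      rw [cm_neg_swap]; exact i.neg_mem (hi _ hbm _ hu)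
    have h3 : cm (r • x + s • y) (r' • x + s' • y) = (r * s' - s * r') • cm x y := by
      rw [cm_add_left, cm_add_right, cm_add_right]
      simp only [cm_smul_left, cm_smul_right, cm_self, smul_zero]
      rw [cm_neg_swap y x, sub_smul, smul_neg, smul_neg, smul_smul, smul_smul, mul_comm s' r,
        mul_comm r' s]
      abel
    rw [cm_add_left (r • x + s • y) u, cm_add_right (r • x + s • y) (r' • x + s' • y) v, h3]
    exact i.add_mem (i.add_mem (i.smul_mem _ hxy) h1) h2
  obtain ⟨z, hz, hez, hzs⟩ := hBCH R S c A m' (hle.trans hm) (fun a ha b hb => him' (hcl a ha b hb))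
    x hxm y hym
  refine ⟨z, hle hz, hez, ?_⟩
  have hspan : cmSpan R m' ≤ i := by
    unfold cmSpan
    rw [Submodule.span_le]
    rintro w ⟨a, ha, b, hb, rfl⟩
    exact hcl a ha b hb
  exact hspan hzs

theorem adp_mem (m : Submodule R S) (i' : Submodule R S) (hi' : ∀ a ∈ m, ∀ b ∈ i', cm a b ∈ i')
    (x : S) (hx : x ∈ m) (y : S) (hy : y ∈ i') (n : ℕ) : adp x n y ∈ i' := by
  induction n with
  | zero => simpa [adp] using hy
  | succ n ih =>
    unfold adp at ih ⊢
    rw [Function.iterate_succ_apply']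
    exact hi' _ hx _ ih

theorem inv_one_fac : Ring.inverse ((Nat.factorial 0 : ℕ) : R) = 1 := by
  simp

/-- the remainder of `Ad` -/
theorem rem_mem {c : ℕ} (A : Fil R S c) (m i i' : Submodule R S) (hm : m ≤ A.F 1)
    (hi'm : i' ≤ m) (hi' : ∀ a ∈ m, ∀ b ∈ i', cm a b ∈ i')
    (hii : ∀ a ∈ m, ∀ b ∈ m, ∀ w ∈ i', cm a (cm b w) ∈ i) (x : S) (hx : x ∈ m) (y : S)
    (hy : y ∈ i') :
    (∑ j ∈ range (c + 1), Ring.inverse (j.factorial : R) • adp x j y) - y - cm x y ∈ i := by
  rcases Nat.eq_zero_or_pos c with rfl | hc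
  · have h0 : y = 0 := by
      have : y ∈ A.F 1 := hm (hi'm hy)
      rw [show (1 : ℕ) = 0 + 1 from rfl, A.bot] at this
      simpa using this
    subst h0
    simp [adp, cm]
  · obtain ⟨d, rfl⟩ : ∃ d, c = d + 1 := ⟨c - 1, by omega⟩
    rw [Finset.sum_range_succ', Finset.sum_range_succ']
    have e1 : Ring.inverse ((Nat.factorial 0 : ℕ) : R) • adp x 0 y = y := by
      simp [adp]
    have e2 : Ring.inverse ((Nat.factorial (0 + 1) : ℕ) : R) • adp x (0 + 1) y = cm x y := by
      simp [adp]
    rw [e1, e2]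
    have : (∑ k ∈ range d, Ring.inverse (((k + 1 + 1).factorial : ℕ) : R) • adp x (k + 1 + 1) y) +
        cm x y + y - y - cm x y
        = ∑ k ∈ range d, Ring.inverse (((k + 1 + 1).factorial : ℕ) : R) • adp x (k + 1 + 1) y := by
      abel
    rw [this]
    refine i.sum_mem fun k _ => i.smul_mem _ ?_
    have : adp x (k + 1 + 1) y = cm x (cm x (adp x k y)) := by
      unfold adp
      rw [Function.iterate_succ_apply', Function.iterate_succ_apply']
    rw [this]
    exact hii _ hx _ hx _ (adp_mem m i' hi' x hx y hy k)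

/-- BC2 -/
theorem t_BC2 (hBCH : S_BCH) (hADE : S_ADE) : S_BC2 := by
  intro R S _ _ _ c A m i hm hcl him hi
  refine ⟨fun x hx y hy hxy => partA hBCH A m i hm him hi x hx y hy hxy, ?_, ?_⟩
  · intro i' hii' hi'm hi' hii x hx y hy
    have hrem := rem_mem A m i i' hm hi'm hi' hii x hx y hy
    have hade := hADE R S c A x (hm hx) y (hm (hi'm hy))
    set y' : S := ∑ j ∈ range (c + 1), Ring.inverse (j.factorial : R) • adp x j y with hy'
    have hcmi' : cm x y ∈ i' := hi' _ hx _ hy
    have hy'i' : y' ∈ i' := by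
      have : y' = (y' - y - cm x y) + (y + cm x y) := by abel
      rw [this]
      exact i'.add_mem (hii' hrem) (i'.add_mem hy hcmi')
    have hc1 : cm y' (-y) ∈ i := by
      have : y' = (y' - y - cm x y) + (y + cm x y) := by abel
      rw [this, cm_neg_right, cm_add_left, cm_add_left, cm_self, zero_add]
      refine i.neg_mem (i.add_mem ?_ ?_)
      · rw [cm_neg_swap]
        exact i.neg_mem (hi _ (hi'm hy) _ hrem)
      · rw [cm_neg_swap]
        exact i.neg_mem (hii _ (hi'm hy) _ hx _ hy)
    obtain ⟨z, hz, hez, hzi⟩ := partA hBCH A m i hm him hi y' (hi'm hy'i') (-y)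
      (m.neg_mem (hi'm hy)) hc1
    have hzc : z - cm x y ∈ i := by
      have : z - cm x y = (z - y' - -y) + (y' - y - cm x y) := by abel
      rw [this]
      exact i.add_mem hzi hrem
    refine ⟨z, ?_, ?_, hzc⟩
    · have : z = (z - cm x y) + cm x y := by abel
      rw [this]
      exact i'.add_mem (hii' hzc) hcmi'
    · rw [hez, hade.2, hade.1]
  · intro x hx n hn
    have hnm := him hn
    have hxn : cm x n ∈ i := hi _ hx _ hn
    constructor
    · obtain ⟨z, hz, hez, hzi⟩ := partA hBCH A m i hm him hi (-x) (m.neg_mem hx) (x + n)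
        (m.add_mem hx hnm) (by
          rw [cm_neg_left, cm_add_right, cm_self, zero_add]; exact i.neg_mem hxn)
      refine ⟨z, ?_, hez⟩
      have : z = (z - -x - (x + n)) + n := by abel
      rw [this]
      exact i.add_mem hzi hn
    · obtain ⟨z, hz, hez, hzi⟩ := partA hBCH A m i hm him hi x hx n hnm hxn
      refine ⟨z, hz, hez, ?_⟩
      have : z - x = (z - x - n) + n := by abel
      rw [this]
      exact i.add_mem hzi hn


end H27.LZ
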